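import Pool.Agent.K3h82.BT.Fin2
import Pool.Agent.Y158.FQ.Fin3

/-!
# Sections for the curves `d y ^ 2 = x ^ 5 - x` over `ℚ`, relative to the prime `2`

Let `d` be an integer which divides `2 p` for a prime number `p`, so `d = ±1, ±2, ±p, ±2 p`, and let
`X` be the smooth projective curve of genus `2` over `ℚ` with the equation

  `d y ^ 2 = x ^ 5 - x`,

a quadratic twist of the curve `y ^ 2 = x ^ 5 - x` with the largest automorphism group in genus `2`.
It has four rational Weierstrass points, above `x = 0, 1, -1, ∞`, and two conjugate ones, above
`x = ±i`.  We prove: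

*Let `s` be a section of the geometrically pro-`2` fundamental group `π₁(X)^(2) → G_ℚ` which over
`ℚ_2` is given by a local point.  Then over `ℚ_2` it is given by one of the four rational Weierstrass
points.  If `p` is `3` or `5` modulo `8`, then `s` is the section of this rational point.*

Nothing is assumed at the other primes.  For `p = 3, 5` modulo `8` this is the section conjecture,
for geometrically pro-`2` sections which are given by a point at `2`.  For an odd `p` there
are two isomorphism classes of curves, those of `y ^ 2 = x ^ 5 - x` and of `p y ^ 2 = x ^ 5 - x`: the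
curves for `d`, `-d`, `2 d` are isomorphic (`twist_neg`, `twist_two` below).

The theorem is stated for the function fields `F` of transcendence degree one over `ℚ` with a
nonconstant element `x`, and for the sections `s` of a quotient `Gal(N/F)` of the absolute Galois
group of `F` which fix an element `y` of `N` with `d y ^ 2 = x ^ 5 - x`, where `N` contains the field
`N₀` such that `Gal(N₀/ℚ(x, y))` is the geometrically pro-`2` fundamental group of `X`.  So it
contains the following cases.

* `y` is in `F`, so that `F` is the function field of a curve with a nonconstant map to `X`, for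
  example the hyperelliptic curve `d Y ^ 2 = Z ^ (8 m + 5) - Z` of genus `4 m + 2`
  (`hyperelliptic` below).  Here `Gal(N/F)` may be the fundamental group of the curve or of an open
  subscheme of it (`proTwo_unramified` below).  This contains the case of `X` itself.
* `y` is not in `F`, for example `F = ℚ(x)`, the function field of the line minus the six points
  `0, ±1, ±i, ∞`.  The condition on `s` is that the Kummer class of `d (x ^ 5 - x)` along `s` in
  `H¹(ℚ, μ_2)` is trivial.

The local point is a place `w` of `N` with values in an algebraic closure of `ℚ_2`.  The conclusion is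
that `x` has the value `0`, `1`, `-1` or `∞` at `w` and, for `p = 3, 5` modulo `8`, that all
automorphisms `s g` map the valuation ring of `w` on `N₀` to itself.  So the section of
`Gal(N₀/ℚ(x, y))` which is induced by `s` has image in the decomposition group of a valuation ring of
`N₀` above one of the four rational points; this means that it is the section attached to this point.

Proof.  Over `K = ℚ(i)` the six Weierstrass points are the vertices of an octahedron.  The square
roots `W₁`, `W₂`, `W₃` of `x ^ 3 - x`, `x ^ 4 - 1`, `x ^ 3 + x`, for the three ways to omit two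
opposite vertices, are in `N₀`, since `ℚ̄(x, y, Wⱼ)` is unramified over `ℚ̄(x, y)`.  There are rational
numbers `Dⱼ` such that the section fixes the elements `wⱼ = Wⱼ / √Dⱼ`, so it gives sections of the
three curves of genus one `Dⱼ wⱼ ^ 2 = ⋯`, and `D₁ D₂ D₃` is a square.  Let `v` be a place of `K`
which does not divide `2 p`.  By a weight argument at `v`, in the coordinate `1 / (x - a)` with
`a ^ 4 = -1`, which is a good coordinate for all these curves, the inertia group of `v` acts trivially
on the residue field of the Gauss valuation of `N₀`, so `Dⱼ` has even valuation at `v`.  As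
`D₁ D₂ D₃` is a square, there is a `j` such that `Dⱼ` has even valuation also above `p`.  Hence `Dⱼ`
is, up to squares of `K`, one of `1`, `i`, `1 + i`, `i (1 + i)`.  After a Möbius transformation of
order `4` or `2` one may assume `j = 2`.

Now Fermat's descent for the curve `w ^ 2 = x ^ 4 - 1` over `ℚ(i)` is carried out in the fixed field
of the section, with its Kummer theory and with the Gauss valuations for all `v ∤ 2`, which lie in
this field since `v` is unramified for the section of the curve of genus one.  It gives, from a
section with a local point `x ≠ 0, ±1, ±i, ∞` at `2`, an infinite chain of divisions by `1 + i` of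
the local point on the curve `w ^ 2 = x ^ 3 - x` and its twists over `ℚ_2(i)`, with the local
conditions computed at each step, and there is no such chain.  So the value of `x` is in
`{0, ±1, ±i, ∞}`, and it is not `±i`, as it is in `ℚ_2`.

For the second part let `c` be the element of order two of the inertia group of the branch point of
`N₀ / ℚ̄(x)` below `w`.  The sections `s` and `c s c⁻¹` agree on the inertia groups of the places
`v ∤ 2 p` of `K` and on the decomposition group at `2`.  Since `N₀` is obtained by the extraction of
square roots, they are equal if every quadratic character of `G_K` which is trivial on these groups is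
trivial.  A number of `K` with even valuation outside `2 p` which is a square in `ℚ_2(i)` is a square
if `p = 3, 5` modulo `8`, since then `±p` is not a square in `ℚ_2`.  So `s` commutes with `c` on
`G_K`, and therefore preserves the place fixed by `c`.  Finally `G_ℚ` is generated by `G_K` and the
decomposition group at `2`.
-/

set_option autoImplicit false

open Pool.Agent.W620.SC Pool.Agent.TH954

namespace Pool.Agent.Results.MP_2f3286_ag.BolzaTwists

/-- The maximal geometrically pro-`2` unramified extension `N₀` of `ℚ(x, y)` in `Ω`: the compositum of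
the finite Galois extensions in `Ω` of `ℚ̄(x, y)` whose degree is a power of `2` and in which no
valuation ring over `ℚ̄` ramifies. -/
noncomputable def ProTwo {Ω : Type} [Field Ω] [Algebra ℚ Ω] (x y : Ω) : Set Ω :=
  Pool.Agent.Y157.PS.geomPro 2 ℚ (IntermediateField.adjoin ℚ {x, y}) Ω

/-- If `x`, `y` are in `F`, the extension `N₀` is contained in the maximal extension of `F` which is
unramified at a set `U` of valuation rings over `ℚ`; so the theorem applies to the fundamental group
of every curve with function field `F`. -/
theorem proTwo_unramified {F Ω : Type} [Field F] [Field Ω] [Algebra ℚ F] [Algebra F Ω]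
    [Algebra ℚ Ω] [IsScalarTower ℚ F Ω] [IsAlgClosed Ω] [Algebra.IsAlgebraic F Ω]
    (x y : F) (hx : Transcendental ℚ x)
    (hF : Algebra.IsAlgebraic (IntermediateField.adjoin ℚ {x}) F) (U : Set (ValuationSubring F))
    (hU : ∀ O ∈ U, ∀ c : ℚ, algebraMap ℚ F c ∈ O) :
    ProTwo (algebraMap F Ω x) (algebraMap F Ω y) ⊆ unramified F Ω U :=
  fun z hz => Pool.Agent.Y158.FQ.geomPro_unr' 2 x hx hF _
    (IntermediateField.subset_adjoin ℚ _ (by simp)) U hU z
    ((Pool.Agent.Y158.FQ.geomPro_base (k := ℚ) (K := ℚ) (X := x) (Y := y) (c := 1) (c' := 1)
      (one_mem _) (one_mem _) one_ne_zero one_ne_zero (by rw [one_mul]) (by rw [one_mul]) z).2 hz)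

/-- The curves for `d` and `-d` are isomorphic. -/
theorem twist_neg {F : Type} [Field F] {d x y : F} (h : d * y ^ 2 = x ^ 5 - x) :
    -d * y ^ 2 = (-x) ^ 5 - -x := by
  linear_combination -h

/-- The curves for `d` and `2 d` are isomorphic. -/
theorem twist_two {F : Type} [Field F] {d x y : F} (hx : x ≠ 1) (h : d * y ^ 2 = x ^ 5 - x) :
    2 * d * (2 * y / (x - 1) ^ 3) ^ 2 = ((x + 1) / (x - 1)) ^ 5 - (x + 1) / (x - 1) := by
  have h1 := Pool.Agent.K3h82.BT.mob_y (e := 1) (by ring) (sub_ne_zero.2 hx) h
  rwa [mul_one] at h1

/-- The curve `d Y ^ 2 = Z ^ (8 m + 5) - Z` maps to the curve `d y ^ 2 = x ^ 5 - x`. -/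
theorem hyperelliptic {F : Type} [Field F] {d Y Z : F} (m : ℕ)
    (h : d * Y ^ 2 = Z ^ (8 * m + 5) - Z) :
    d * (Z ^ m * Y) ^ 2 = (Z ^ (2 * m + 1)) ^ 5 - Z ^ (2 * m + 1) := by
  have h1 : d * (Z ^ m * Y) ^ 2 = Z ^ (2 * m) * (d * Y ^ 2) := by ring
  rw [h1, h]
  ring

end Pool.Agent.Results.MP_2f3286_ag.BolzaTwists

open Pool.Agent.Results.MP_2f3286_ag.BolzaTwists in
/-- **Sections for the curves `d y ^ 2 = x ^ 5 - x` over `ℚ`, relative to `2`.**  Let `p` be a prime
number and let `d` be an integer which divides `2 p`.  Let `F` be a function field of transcendence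
degree one over `ℚ` with algebraic closure `Ω`, and let `x` be a nonconstant element of `F`.  Let `N`
be an extension of `F` in `Ω`, let `s` be a section of `Gal(N/F) → G_ℚ`, and let `y` be an element of
`N` with `d y ^ 2 = x ^ 5 - x` that is fixed by `s`, for example an element of `F`.  Assume that `N`
contains `ProTwo x y`, and let `w` be a place of `N` with values in the algebraic closure of `ℚ_2`
that gives `s` over `ℚ_2`.  Then `x` has the value `0`, `1`, `-1` or `∞` at `w`.  If `p` is `3` or `5`
modulo `8`, then `s` is, on `ProTwo x y`, a section with values in the decomposition group of `w`. -/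
theorem Pool.Agent.Results.MP_2f3286_ag.BolzaTwists.result
    (p : ℕ) (hp : p.Prime) (d : ℤ) (hd : d ∣ 2 * p)
    (F Ω B : Type) [Field F] [Field Ω] [Field B] [Algebra ℚ F] [Algebra F Ω] [Algebra ℚ Ω]
    [Algebra ℚ B] [IsScalarTower ℚ F Ω] [IsAlgClosed Ω] [Algebra.IsAlgebraic F Ω]
    [IsAlgClosure ℚ B] (x : F) (hx : Transcendental ℚ x)
    (hF : Algebra.IsAlgebraic (IntermediateField.adjoin ℚ {x}) F)
    (N : IntermediateField F Ω) (s : GalSection ℚ F N B) (y : N)
    (hxy : (d : N) * y ^ 2 = algebraMap F N (x ^ 5 - x))
    (hys : ∀ g : B ≃ₐ[ℚ] B, s.s g y = y)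
    (hN : ProTwo (algebraMap F Ω x) (y : Ω) ⊆ N)
    (w : Plc ℚ N (AlgebraicClosure ℚ_[2])) (hw : s.GivenBy ℚ_[2] w) :
    (w.val (algebraMap F N x) 0 ∨ w.val (algebraMap F N x) 1 ∨ w.val (algebraMap F N x) (-1) ∨
      w.val (algebraMap F N x)⁻¹ 0) ∧
    (p % 8 = 3 ∨ p % 8 = 5 → ∀ (g : B ≃ₐ[ℚ] B) (z : N),
      (z : Ω) ∈ ProTwo (algebraMap F Ω x) (y : Ω) → (s.s g z ∈ w.W ↔ z ∈ w.W)) :=
  Pool.Agent.K3h82.BT.btQ hp hd x hx hF N s y hxy hys hN w hw
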