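import Pool.Agent.K3h82.FQ4.Main5
import Pool.Agent.Y158.FQ.Fin3

/-!
# Sections for the Fermat quartic over `ℚ` and its twists, relative to the prime `2`

Let `p` be a prime number and let `a`, `b` be integers which divide `2 p`.  Let `X` be the plane
quartic curve over `ℚ` with the affine equation

  `a ^ 2 X ^ 4 + b ^ 2 Y ^ 4 = 1`,

of genus `3`, so for `a = b = 1` the Fermat quartic.  These are, up to isomorphism, all the curves
`a ^ 2 X ^ 4 + b ^ 2 Y ^ 4 = c ^ 2 Z ^ 4` with nonzero integers `a`, `b`, `c` without prime divisors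
different from `2`, `p` (`scale`, `projective` below).  We prove:

*Let `s` be a section of the geometrically pro-`2` fundamental group `π₁(X)^(2) → G_ℚ` which over
`ℚ_2` is given by a local point.  Then this point lies on `X Y = 0`.  If `p` is `3` or `5`
modulo `8`, then `s` is the section of a rational point of `X`.*

Nothing is assumed at the other primes.  For `p = 3, 5` modulo `8` this is the section conjecture for
these curves, for geometrically pro-`2` sections which are given by a point at `2`.  For `p = 3` it
contains the Fermat quartic `X ^ 4 + Y ^ 4 = 1`: such a section is the section of one of the four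
rational points `(0, ±1)`, `(±1, 0)`.  If neither `a` nor `b` is `±1`, there is no such section.

The theorem is stated for the function fields `F` of transcendence degree one over `ℚ` and for the
sections `s` of a quotient `Gal(N/F)` of the absolute Galois group of `F` which fix elements `X`, `Y`
of `N` with this equation, `X` not constant, where `N` contains the field `N₀` such that
`Gal(N₀/ℚ(X, Y))` is the geometrically pro-`2` fundamental group of the curve.  So it contains the
following cases.

* `X`, `Y` are in `F`, so that `F` is the function field of a curve with a nonconstant map to the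
  curve, for example the Fermat curve of degree `4 m` (`fermat` below).  Here `Gal(N/F)` may be the
  fundamental group of the curve or of an open subscheme of it (`proTwo_unramified` below).  This
  contains the case of the curve itself.
* `F = ℚ(T)`, the function field of the line minus the three points `0`, `1`, `∞`, with `T = X ^ 4`
  and `a = b = 1`.  The condition on `s` is that the Kummer classes of `T` and `1 - T` along `s` in
  `H¹(ℚ, μ_4) = ℚˣ / ℚˣ ^ 4` are trivial.

The local point is a place `w` of `N` with values in an algebraic closure of `ℚ_2`.  The conclusion is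
that `X` or `Y` has the value `0` at `w` and, for `p = 3, 5` modulo `8`, that the values `u`, `v` of
`X`, `Y` are rational and that all automorphisms `s g` map the valuation ring of `w` on `N₀` to
itself.  So the section of `Gal(N₀/ℚ(X, Y))` which is induced by `s` has image in the decomposition
group of a valuation ring of `N₀` above the rational point `(u, v)`; this means that it is the section
attached to this point.

Proof.  Put `x = b Y ^ 2 / (1 - a X ^ 2)`.  Then `x ^ 4 - 1` and `x ^ 3 - x` are `a` and `2 a b` times
the squares of functions on the curve, and `ℚ̄(X, Y)` is the extension of `ℚ̄(x)` by these two square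
roots, a covering of the `x`-line of degree `4` with ramification index `2` above `0`, `±1`, `±i`,
`∞`.  So `N₀` is also the geometrically pro-`2` extension `N₀` of the curve `y ^ 2 = x ^ 5 - x` of
genus `2`, which has no map from the Fermat quartic: both curves have the unramified coverings with
the function field `ℚ̄(X, Y, y)`.  There is a rational number `d` such that a square root `y` of
`(x ^ 5 - x) / d` is fixed by `s`.  Let `σ` be in the inertia group of a prime `q` that does not
divide `2 p`.  By a weight argument, applied to the elements of `G_ℚ` that fix a square root of `d`,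
the square of `s σ` acts trivially on the residue field of the Gauss valuation of `N₀` at `q`.  If
`σ` did not fix the square root of `d`, there would be an automorphism of order `2` of `N₀` over
`ℚ̄(X, Y)` which maps `y` to `-y`.  This automorphism would fix a place of `N₀`, but `y` defines an
unramified extension of `ℚ̄(X, Y)`, a contradiction.  So one can take an integer `d` which divides
`2 p`, and the theorem follows from the one for the curves `d y ^ 2 = x ^ 5 - x`
(`Pool.Agent.K3h82.BT.btQ`, the hand-in `BolzaTwists`).
-/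

set_option autoImplicit false

open Pool.Agent.W620.SC Pool.Agent.TH954

namespace Pool.Agent.Results.MP_2f3286_ag.FermatQuartic

/-- The maximal geometrically pro-`2` unramified extension `N₀` of `ℚ(X, Y)` in `Ω`: the compositum of
the finite Galois extensions in `Ω` of `ℚ̄(X, Y)` whose degree is a power of `2` and in which no
valuation ring over `ℚ̄` ramifies. -/
noncomputable def ProTwo {Ω : Type} [Field Ω] [Algebra ℚ Ω] (X Y : Ω) : Set Ω :=
  Pool.Agent.Y157.PS.geomPro 2 ℚ (IntermediateField.adjoin ℚ {X, Y}) Ω

/-- If `X`, `Y` are in `F`, the extension `N₀` is contained in the maximal extension of `F` which is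
unramified at a set `U` of valuation rings over `ℚ`; so the theorem applies to the fundamental group
of every curve with function field `F`. -/
theorem proTwo_unramified {F Ω : Type} [Field F] [Field Ω] [Algebra ℚ F] [Algebra F Ω]
    [Algebra ℚ Ω] [IsScalarTower ℚ F Ω] [IsAlgClosed Ω] [Algebra.IsAlgebraic F Ω]
    (X Y : F) (hX : Transcendental ℚ X)
    (hF : Algebra.IsAlgebraic (IntermediateField.adjoin ℚ {X}) F) (U : Set (ValuationSubring F))
    (hU : ∀ O ∈ U, ∀ c : ℚ, algebraMap ℚ F c ∈ O) :
    ProTwo (algebraMap F Ω X) (algebraMap F Ω Y) ⊆ unramified F Ω U :=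
  fun z hz => Pool.Agent.Y158.FQ.geomPro_unr' 2 X hX hF _
    (IntermediateField.subset_adjoin ℚ _ (by simp)) U hU z
    ((Pool.Agent.Y158.FQ.geomPro_base (k := ℚ) (K := ℚ) (X := X) (Y := Y) (c := 1) (c' := 1)
      (one_mem _) (one_mem _) one_ne_zero one_ne_zero (by rw [one_mul]) (by rw [one_mul]) z).2 hz)

/-- The Fermat curve of degree `4 m` maps to the Fermat quartic. -/
theorem fermat {F : Type} [Field F] {U V : F} (m : ℕ) (h : U ^ (4 * m) + V ^ (4 * m) = 1) :
    (1 : F) ^ 2 * (U ^ m) ^ 4 + (1 : F) ^ 2 * (V ^ m) ^ 4 = 1 := by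
  linear_combination h

/-- Multiplication of `a` and `b` by squares gives an isomorphic curve. -/
theorem scale {F : Type} [Field F] {a b r t X Y : F}
    (h : (a * r ^ 2) ^ 2 * X ^ 4 + (b * t ^ 2) ^ 2 * Y ^ 4 = 1) :
    a ^ 2 * (r * X) ^ 4 + b ^ 2 * (t * Y) ^ 4 = 1 := by
  rw [← h]
  ring

/-- The curve `a ^ 2 X ^ 4 + b ^ 2 Y ^ 4 = c ^ 2 Z ^ 4` is isomorphic to the curve for `a c`, `b c`. -/
theorem projective {F : Type} [Field F] {a b c X Y Z : F} (hc : c ≠ 0) (hZ : Z ≠ 0)
    (h : a ^ 2 * X ^ 4 + b ^ 2 * Y ^ 4 = c ^ 2 * Z ^ 4) :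
    (a * c) ^ 2 * (X / (c * Z)) ^ 4 + (b * c) ^ 2 * (Y / (c * Z)) ^ 4 = 1 := by
  have h1 : (a * c) ^ 2 * (X / (c * Z)) ^ 4 + (b * c) ^ 2 * (Y / (c * Z)) ^ 4 =
      (a ^ 2 * X ^ 4 + b ^ 2 * Y ^ 4) / (c ^ 2 * Z ^ 4) := by
    field_simp
  rw [h1, h, div_self (mul_ne_zero (pow_ne_zero 2 hc) (pow_ne_zero 4 hZ))]

end Pool.Agent.Results.MP_2f3286_ag.FermatQuartic

open Pool.Agent.Results.MP_2f3286_ag.FermatQuartic in
/-- **Sections for the curves `a ^ 2 X ^ 4 + b ^ 2 Y ^ 4 = 1` over `ℚ`, relative to `2`.**  Let `p` be
a prime number and let `a`, `b` be integers which divide `2 p`.  Let `F` be a field over `ℚ` with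
algebraic closure `Ω`, let `N` be an extension of `F` in `Ω`, let `s` be a section of
`Gal(N/F) → G_ℚ`, and let `X`, `Y` be elements of `N` with `a ^ 2 X ^ 4 + b ^ 2 Y ^ 4 = 1` that are
fixed by `s`, for example elements of `F`.  Assume that `X` is transcendental over `ℚ` and that `Ω` is
algebraic over `ℚ(X)`, so that `F` is a function field of transcendence degree one, and that `N`
contains `ProTwo X Y`.  Let `w` be a place of `N` with values in the algebraic closure of `ℚ_2` that
gives `s` over `ℚ_2`.  Then `X` or `Y` has the value `0` at `w`.  If `p` is `3` or `5` modulo `8`, then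
`X`, `Y` have rational values at `w`, the coordinates of a rational point of the curve, and `s` is, on
`ProTwo X Y`, a section with values in the decomposition group of `w`. -/
theorem Pool.Agent.Results.MP_2f3286_ag.FermatQuartic.result
    (p : ℕ) (hp : p.Prime) (a b : ℤ) (ha : a ∣ 2 * p) (hb : b ∣ 2 * p)
    (F Ω B : Type) [Field F] [Field Ω] [Field B] [Algebra ℚ F] [Algebra F Ω] [Algebra ℚ Ω]
    [Algebra ℚ B] [IsScalarTower ℚ F Ω] [IsAlgClosed Ω] [Algebra.IsAlgebraic F Ω]
    [IsAlgClosure ℚ B] (N : IntermediateField F Ω) (s : GalSection ℚ F N B) (X Y : N)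
    (hX : Transcendental ℚ (X : Ω))
    (hΩ : Algebra.IsAlgebraic (IntermediateField.adjoin ℚ {(X : Ω)}) Ω)
    (hXY : (a : N) ^ 2 * X ^ 4 + (b : N) ^ 2 * Y ^ 4 = 1)
    (hXs : ∀ g : B ≃ₐ[ℚ] B, s.s g X = X) (hYs : ∀ g : B ≃ₐ[ℚ] B, s.s g Y = Y)
    (hN : ProTwo (X : Ω) (Y : Ω) ⊆ N)
    (w : Plc ℚ N (AlgebraicClosure ℚ_[2])) (hw : s.GivenBy ℚ_[2] w) :
    (w.val X 0 ∨ w.val Y 0) ∧
    (p % 8 = 3 ∨ p % 8 = 5 →
      (∃ u v : ℚ, (a : ℚ) ^ 2 * u ^ 4 + (b : ℚ) ^ 2 * v ^ 4 = 1 ∧ w.val X u ∧ w.val Y v) ∧
      ∀ (g : B ≃ₐ[ℚ] B) (z : N), (z : Ω) ∈ ProTwo (X : Ω) (Y : Ω) →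
        (s.s g z ∈ w.W ↔ z ∈ w.W)) :=
  Pool.Agent.K3h82.FQ4.fq4 hp ha hb N s X Y hXs hYs hX hΩ hXY hN w hw
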