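import Pool.Agent.K3h23.GF.Dens
import Pool.Agent.K3h23.GF.Supply
import Pool.Agent.K3h23.GF.Count

/-!
# Points and sections over all extensions for 100% of the curves `a xᵐ + b yⁿ = c`

Let `k` be a number field, or more generally any field finitely generated over `ℚ`, that is, the
fraction field of a domain `R` of characteristic zero that is finitely generated as a ring.  Let
`n ≥ 3`.  For `(a, b, c) ∈ R³` with `a b c ≠ 0` and all `m ≥ 1` consider the smooth projective curves
`X_m` over `k` with the affine equations

  `a xᵐ + b yⁿ = c`,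

for example, for `m = n`, the plane curve `a xⁿ + b yⁿ = c zⁿ`, and for `m = 2` the hyperelliptic curve
`a x² = c - b yⁿ`.  We prove that for 100% of all `(a, b, c)` the following is true for all `m` and all
finite extensions `L` of `k` at once, with `M = gcd(m, n)`.

* If `X_m` has a point over `L`, then `M` divides `[L : k]`.
* If the fundamental group of `X_m` over `L`, or of one of its open subcurves, or of a smooth curve over
  `L` which dominates one of them, has a section over `G_L`, then `M` divides `[L : k]`, or at least
  `M / 2` divides `[L : k]` if `4 ∣ M` and `n / M` is odd.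

In particular, for `L = k` the section conjecture holds (without points and sections) for all of the
curves `X_m` with `gcd(m, n) > 1`.  If `n` is not divisible by `4`, all finite extensions `L` of `k` over
which the plane curve `a xⁿ + b yⁿ = c zⁿ`, or one of its open subcurves, or a curve which dominates it,
has a section have degrees divisible by `n`.  This is the best possible: the points with `x = 0` have the
degree `n`.

The coefficients `(a, b, c)` of all other curves are in a set of density zero in a strong sense: for every
`ε > 0` there is an ideal `I` of `R` of finite index such that they lie in at most `ε #(R/I)³` residue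
classes modulo `I`.  (In the families of all superelliptic curves of
`Pool.Agent.Results.MP_e66f84_ag.SuperellipticFamilies` the curves `X_m` themselves are a set of density
zero.)

The fundamental group is described through valuations.  Let `U` be a smooth geometrically connected
curve over `L` with function field `F`, let `Ω` be an algebraic closure of `F`, and let `F_U` be the
maximal extension of `F` inside `Ω` which is unramified over the closed points of `U`, that is, over
their local rings, which are valuation rings of `F`.  Then `π₁(U) = Gal(F_U/F)`, and the map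
`π₁(U) → G_L` is the restriction of automorphisms to the algebraic closure of `L` in `Ω`.

Proof.  There are a number field `K` and a homomorphism `P : R → K` such that for almost all primes `v` of
`K` there is an embedding `ψ : k → K_v` with `ψ(r) ≡ P(r)` modulo `v²` for all `r ∈ R`; it induces a
discrete valuation on `k` with finite residue field `κ`.  Suppose that `N v ≡ 1` modulo `n`, that `P(a)`
has valuation one, and that `P(c)/P(b)` is a unit at `v` which generates `κˣ` modulo `n`-th powers.  Then
`c - b yⁿ` is irreducible modulo `v`.  This is true for a proportion of at least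
`(1/4n) (1/N v - 1/(N v)²)` of all `(a, b, c)`, and since the sum of the `1/N v` over the primes `v`
with `N v ≡ 1` modulo `n` diverges, it is true for some `v` for almost all `(a, b, c)`.  Now let `L` be a
finite extension of `k` and `l` a prime number such that `v_l([L : k]) < v_l(M)`.  There is an extension of
the valuation to `L` with ramification index `e` and residue degree `f` such that
`v_l(e f) ≤ v_l([L : k])`.  The irreducible factors of `c - b yⁿ` over the residue field have degree
`n / gcd(n, f)`, so there are no roots, all values of `c - b yⁿ` have a valuation divisible by `n`, and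
the valuation of `a` is `e`, which is not divisible by `M`.  So there is no point.  For sections and odd
`l` we use the local theorem `Pool.Agent.TH377.LocG.local_U`, which is based on the Kummer theory of the
functions `(y - θ)/(y - θ')`, where `θ`, `θ'` are roots of `c - b yⁿ`.  It is also used for `l = 2` and even
`e`, where it loses a factor `2`.  For `l = 2` and odd `e` we use the local theorem for hyperelliptic
curves of `Pool.Agent.Results.MP_2f3286_ag.QuadraticTwists`.
-/

set_option autoImplicit false

open Polynomial

namespace Pool.Agent.Results.MP_2f3286_ag.GeneralizedFermat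

universe v w y

section definitions

variable (k : Type y) (F : Type v) (Ω : Type w) [Field k] [Field F] [Field Ω] [Algebra k F]
  [Algebra F Ω] [Algebra k Ω]

/-- The inertia group of the valuation ring `W` of `Ω`, as a subgroup of `Gal(Ω/F)`: the
automorphisms of `Ω` over `F` that map `W` onto itself and act as the identity on its residue
field. -/
noncomputable def inertia (W : ValuationSubring Ω) : Subgroup (Ω ≃ₐ[F] Ω) :=
  (W.inertiaSubgroup F).map (W.decompositionSubgroup F).subtype

/-- `F_U`, for a set `U` of valuation rings of `F`: the elements of `Ω` fixed by the inertia groups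
of all valuation rings `W` of `Ω` with `W ∩ F ∈ U`.  If `Ω` is an algebraic closure of a field `F`
of characteristic zero, this is the maximal extension of `F` in `Ω` unramified over `U`. -/
noncomputable def unramified (U : Set (ValuationSubring F)) : IntermediateField F Ω :=
  ⨅ W : {W : ValuationSubring Ω // W.comap (algebraMap F Ω) ∈ U},
    IntermediateField.fixedField (inertia F Ω W.1)

/-- The map `τ : M → M` acts as `σ : K → K` on the elements that the fields `K` and `M` have in
common when they are regarded as subfields of `Ω` through `i` and `j`. -/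
def ActsAs {K M Ω : Type*} [Field K] [Field M] [Field Ω] (i : K →+* Ω) (j : M →+* Ω) (σ : K → K)
    (τ : M → M) : Prop :=
  ∀ c z, j z = i c → j (τ z) = i (σ c)

/-- Let `k ⊆ K ⊆ Ω` and `F ⊆ M ⊆ Ω` be fields.  A splitting of `Gal(M/F) → Gal(K/k)`: a continuous
homomorphism `s` from `Gal(K/k)` to `Gal(M/F)` such that `s(σ)` acts as `σ` on the elements of
`K ∩ M`. -/
structure Splitting (K M : Type*) [Field K] [Field M] [Algebra k K] [Algebra F M] [Algebra K Ω]
    [Algebra M Ω] where
  /-- the homomorphism `Gal(K/k) → Gal(M/F)` -/
  toHom : (K ≃ₐ[k] K) →* (M ≃ₐ[F] M)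
  cont : Continuous toHom
  compat : ∀ σ : K ≃ₐ[k] K, ActsAs (algebraMap K Ω) (algebraMap M Ω) σ (toHom σ)

/-- The sections of `π₁(U) = Gal(F_U/F) → G_k`: the continuous homomorphisms `s` from
`G_k = Gal(k̄/k)` to `Gal(F_U/F)`, where `k̄` is the algebraic closure of `k` in `Ω`, such that
`s(σ)` acts as `σ` on the elements of `k̄`. -/
def GaloisSection (U : Set (ValuationSubring F)) : Type w :=
  Splitting k F Ω (algebraicClosure k Ω) (unramified F Ω U)

end definitions

section curve

variable (L : Type y) [Field L]

/-- The smooth projective curve over `L` with the affine equation `a xᵐ + b yⁿ = c` has no point over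
`L`: neither in the affine part nor at infinity.  (Its points at infinity over `L` correspond to the
`r ∈ L` with `a r ^ gcd(m, n) = -b`, namely `r = x ^ (m / gcd(m, n)) / y ^ (n / gcd(m, n))`.) -/
def NoPoint (m n : ℕ) (a b c : L) : Prop :=
  (¬ ∃ x y : L, a * x ^ m + b * y ^ n = c) ∧ ¬ ∃ r : L, a * r ^ Nat.gcd m n = -b

/-- Let `F` be any field over `L` that contains a point `(x, y)` of the curve `a xᵐ + b yⁿ = c`, for
instance the function field of the curve, and let `Ω` be an algebraic closure of `F`.  Then for
every set `U` of valuation rings of `F` over `L` there is no section of `π₁(U) → G_L`.  If `F` is the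
function field of the curve, such `U` are given by the smooth projective curve and by all its open
subcurves. -/
def NoSection (m n : ℕ) (a b c : L) : Prop :=
  ∀ (F : Type v) (Ω : Type w) [Field F] [Field Ω] [Algebra L F] [Algebra F Ω] [Algebra L Ω]
    [IsScalarTower L F Ω] [IsAlgClosure F Ω] (x y : F) (U : Set (ValuationSubring F)),
    algebraMap L F a * x ^ m + algebraMap L F b * y ^ n = algebraMap L F c →
      (∀ O ∈ U, ∀ z : L, algebraMap L F z ∈ O) → IsEmpty (GaloisSection L F Ω U)

end curve

/-- The number `M = gcd(m, n)`, or `M / 2` if `M` is divisible by `4` and `2 M` does not divide `n`. -/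
def sectionIndex (m n : ℕ) : ℕ :=
  if 4 ∣ Nat.gcd m n ∧ ¬ 2 * Nat.gcd m n ∣ n then Nat.gcd m n / 2 else Nat.gcd m n

/-- The triples `t = (a, b, c)` of elements of `R` that do not have the following property:
`a b c ≠ 0`, and for all finite extensions `L` of `k` and all `m ≥ 1`: if `gcd(m, n)` does not divide
`[L : k]`, the smooth projective curve `a xᵐ + b yⁿ = c` has no point over `L`; if
`sectionIndex m n` does not divide `[L : k]`, the curve has no section over `L`. -/
def Exceptional (R : Type) [CommRing R] (k : Type) [Field k] [Algebra R k] (n : ℕ) :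
    Set (Fin 3 → R) :=
  {t | ¬ (t 0 ≠ 0 ∧ t 1 ≠ 0 ∧ t 2 ≠ 0 ∧
    ∀ (L : Type y) [Field L] [Algebra k L] [Algebra R L] [IsScalarTower R k L]
      [FiniteDimensional k L] (m : ℕ), 0 < m →
      (¬ Nat.gcd m n ∣ Module.finrank k L →
        NoPoint L m n (algebraMap R L (t 0)) (algebraMap R L (t 1)) (algebraMap R L (t 2))) ∧
      (¬ sectionIndex m n ∣ Module.finrank k L →
        NoSection.{v, w} L m n (algebraMap R L (t 0)) (algebraMap R L (t 1))
          (algebraMap R L (t 2))))}

/-- Density zero: for every `ε > 0` there is an ideal `I` of `R` of finite index such that `E` lies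
in at most `ε #(R/I)ᴺ` residue classes modulo `I`. -/
def DensityZero {R : Type} [CommRing R] {N : ℕ} (E : Set (Fin N → R)) : Prop :=
  ∀ ε : ℝ, 0 < ε → ∃ I : Ideal R, Finite (R ⧸ I) ∧
    (Set.ncard ((fun (t : Fin N → R) i => Ideal.Quotient.mk I (t i)) '' E) : ℝ) ≤
      ε * (Nat.card (R ⧸ I) : ℝ) ^ N

/-- For `m = n` the condition `NoPoint` says that the plane curve `a xⁿ + b yⁿ = c zⁿ` has no point over
`L`. -/
theorem noPoint_iff (L : Type y) [Field L] (n : ℕ) (hn : n ≠ 0) (a b c : L) (ha : a ≠ 0)
    (hc : c ≠ 0) :
    NoPoint L n n a b c ↔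
      ∀ x y z : L, ¬ (x = 0 ∧ y = 0 ∧ z = 0) → a * x ^ n + b * y ^ n ≠ c * z ^ n := by
  constructor
  · rintro ⟨h1, h2⟩ x y z hxyz h
    by_cases hz : z = 0
    · by_cases hy : y = 0
      · apply hxyz
        refine ⟨?_, hy, hz⟩
        rw [hy, hz, zero_pow hn, mul_zero, mul_zero, add_zero] at h
        rcases mul_eq_zero.1 h with h3 | h3
        · exact absurd h3 ha
        · exact pow_eq_zero_iff hn |>.1 h3
      · apply h2
        refine ⟨x / y, ?_⟩
        have hyn : y ^ n ≠ 0 := pow_ne_zero _ hy
        rw [Nat.gcd_self, div_pow]
        rw [hz, zero_pow hn, mul_zero] at h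
        field_simp
        linear_combination h
    · apply h1
      refine ⟨x / z, y / z, ?_⟩
      have hzn : z ^ n ≠ 0 := pow_ne_zero _ hz
      rw [div_pow, div_pow]
      field_simp
      linear_combination h
  · intro h
    refine ⟨?_, ?_⟩
    · rintro ⟨x, y, hxy⟩
      refine h x y 1 (fun h3 => one_ne_zero h3.2.2) ?_
      rw [one_pow, mul_one, hxy]
    · rintro ⟨r, hr⟩
      refine h r 1 0 (fun h3 => one_ne_zero h3.2.1) ?_
      rw [Nat.gcd_self] at hr
      rw [hr, one_pow, zero_pow hn]
      ring

section proof

open Pool.Agent.TH377.Sup Pool.Agent.K3h23.GF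

lemma toSec {k : Type y} {F : Type v} {Ω : Type w} [Field k] [Field F] [Field Ω] [Algebra k F]
    [Algebra F Ω] [Algebra k Ω] (U : Set (ValuationSubring F))
    (h : IsEmpty (Pool.Agent.W620.SC.GSection k F Ω U)) : IsEmpty (GaloisSection k F Ω U) :=
  ⟨fun s => h.false ⟨s.toHom, s.cont, s.compat⟩⟩

lemma natDegree_binom {k : Type*} [Field k] (n : ℕ) (hn : n ≠ 0) (b c : k) (hb : b ≠ 0) :
    (C c - C b * X ^ n : k[X]).natDegree = n ∧ (C c - C b * X ^ n : k[X]).leadingCoeff = -b := by
  have h1 : (C c - C b * X ^ n : k[X]) = C (-b) * X ^ n + C c := by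
    rw [C_neg]
    ring
  have h2 : (C c : k[X]).degree < (C (-b) * X ^ n : k[X]).degree := by
    rw [degree_C_mul_X_pow _ (neg_ne_zero.2 hb)]
    refine lt_of_le_of_lt degree_C_le ?_
    exact_mod_cast Nat.pos_of_ne_zero hn
  rw [h1]
  refine ⟨?_, ?_⟩
  · rw [natDegree_add_eq_left_of_degree_lt h2, natDegree_C_mul_X_pow _ _ (neg_ne_zero.2 hb)]
  · rw [leadingCoeff_add_of_degree_lt' h2, leadingCoeff_C_mul_X_pow]

/-- the property of the triples -/
def GoodF (R : Type) [CommRing R] (k : Type) [Field k] [Algebra R k] (n : ℕ) (t : Fin 3 → R) :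
    Prop :=
  algebraMap R k (t 0) ≠ 0 ∧ algebraMap R k (t 1) ≠ 0 ∧ algebraMap R k (t 2) ≠ 0 ∧
    Data k (algebraMap R k (t 0)) (C (algebraMap R k (t 2)) - C (algebraMap R k (t 1)) * X ^ n)

lemma of_good {R : Type} [CommRing R] {k : Type} [Field k] [CharZero k] [Algebra R k] (n : ℕ)
    (hn : 3 ≤ n) (t : Fin 3 → R) (ht : GoodF R k n t) (L : Type y) [Field L] [Algebra k L]
    [Algebra R L] [IsScalarTower R k L] [FiniteDimensional k L] (m : ℕ) (hm : 0 < m) :
    (¬ Nat.gcd m n ∣ Module.finrank k L →
        NoPoint L m n (algebraMap R L (t 0)) (algebraMap R L (t 1)) (algebraMap R L (t 2))) ∧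
      (¬ sectionIndex m n ∣ Module.finrank k L →
        NoSection.{v, w} L m n (algebraMap R L (t 0)) (algebraMap R L (t 1))
          (algebraMap R L (t 2))) := by
  obtain ⟨h0, h1, h2, hd⟩ := ht
  obtain ⟨e1, e2⟩ := natDegree_binom n (by omega) (algebraMap R k (t 1)) (algebraMap R k (t 2)) h1
  have hR : ∀ r : R, algebraMap R L r = algebraMap k L (algebraMap R k r) := fun r =>
    IsScalarTower.algebraMap_apply R k L r
  refine ⟨fun hL => ?_, fun hL => ?_⟩
  · obtain ⟨p1, p2⟩ := points_L (L := L) _ _ hd m hm (by rwa [e1])
    refine ⟨?_, ?_⟩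
    · rintro ⟨x, y, hxy⟩
      apply p1
      refine ⟨y, x, ?_⟩
      rw [hR, hR, hR] at hxy
      rw [Polynomial.map_sub, Polynomial.map_mul, Polynomial.map_pow, map_C, map_C, map_X,
        eval_sub, eval_mul, eval_pow, eval_C, eval_C, eval_X]
      linear_combination hxy
    · rintro ⟨r, hr⟩
      apply p2
      refine ⟨r, ?_⟩
      rw [hR, hR] at hr
      rw [e1, e2, map_neg]
      exact hr
  · intro F Ω _ _ _ _ _ _ _ x y U hxy hU
    have hcl : IsAlgClosed Ω := IsAlgClosure.isAlgClosed F
    have halg : Algebra.IsAlgebraic F Ω := IsAlgClosure.isAlgebraic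
    refine toSec U (sections_L (L := L) _ _ hd (by rw [e1]; exact hn) m hm
      (by rw [e1]; exact hL) U hU y x ?_)
    rw [hR, hR, hR] at hxy
    rw [Polynomial.map_sub, Polynomial.map_mul, Polynomial.map_pow, map_C, map_C, map_X,
      map_sub, map_mul, map_pow, aeval_C, aeval_C, aeval_X]
    linear_combination hxy

end proof

/-- Let `R` be a domain of characteristic zero that is finitely generated as a ring, with fraction
field `k`; so `k` is any number field or any field finitely generated over `ℚ`.  Let `n ≥ 3`.  For all
triples `(a, b, c)` of elements of `R` outside a set of density zero: `a b c ≠ 0`, and for all finite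
extensions `L` of `k` and all `m ≥ 1`, if the smooth projective curve with the affine equation
`a xᵐ + b yⁿ = c` has a point over `L`, then `M = gcd(m, n)` divides `[L : k]`; if the fundamental group
of one of its open subcurves over `L`, or of a smooth curve over `L` which dominates it, has a section
over `G_L`, then `M` divides `[L : k]`, except that it may be only `M / 2` which divides `[L : k]` if
`4 ∣ M` and `n / M` is odd. -/
theorem result (R : Type) [CommRing R] [IsDomain R] [CharZero R] [Algebra.FiniteType ℤ R]
    (k : Type) [Field k] [Algebra R k] [IsFractionRing R k] (n : ℕ) (hn : 3 ≤ n) :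
    DensityZero (Exceptional.{v, w, y} R k n) := by
  classical
  have hcz : CharZero k := charZero_of_injective_algebraMap (IsFractionRing.injective R k)
  have hinj := IsFractionRing.injective R k
  have hnr : (0 : ℝ) < n := by
    have : 0 < n := by omega
    exact_mod_cast this
  have hδ1 : (1 / (4 * n) : ℝ) ≤ 1 := by
    rw [div_le_one (by positivity)]
    have : (3 : ℝ) ≤ n := by exact_mod_cast hn
    linarith
  intro ε hε
  obtain ⟨I, hI, hle⟩ := Pool.Agent.K3h23.GF.density_all (R := R) (k := k) 3
    (fun {L} _ _ v => Pool.Agent.K3h23.GF.GoodT v n)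
    (fun {L} _ _ v => n ∣ Ideal.absNorm v.asIdeal - 1) (1 / (4 * n) : ℝ)
    (fun L _ _ D hD ε hε => Pool.Agent.K3h23.GF.supply_n n (by omega) D hD _ (by positivity) hδ1
      ε hε)
    (fun L _ _ v hv => Pool.Agent.K3h23.GF.badT_card v n (by omega) hv)
    (GoodF R k n)
    (by
      intro L _ _ v hv h2 P hint ψ hψ c y hcy hy
      obtain ⟨g1, g2, g3, g4, g5⟩ := Pool.Agent.K3h23.GF.goodT_iff v n (by omega) hv y hy
      have hcy' : ∀ i, v.valuation L (P (Pool.Agent.K3h23.GF.vec n c i) -
          algebraMap (NumberField.RingOfIntegers L) L (Pool.Agent.K3h23.GF.vec n y i)) ≤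
          WithZero.exp (-2) := by
        intro i
        rw [Pool.Agent.K3h23.GF.map_vec, Pool.Agent.K3h23.GF.map_vec]
        unfold Pool.Agent.K3h23.GF.vec
        split_ifs
        · exact hcy 0
        · exact hcy 2
        · rw [neg_sub_neg, ← neg_sub, Valuation.map_neg]
          exact hcy 1
        · rw [sub_zero, map_zero]
          exact zero_le
      have hv0 : Pool.Agent.K3h23.GF.vec n y 0 = y 0 := by simp [Pool.Agent.K3h23.GF.vec]
      obtain ⟨d1, d2, d3⟩ := Pool.Agent.K3h23.GF.data_embR v P ψ hint hψ h2
        (Pool.Agent.K3h23.GF.vec n c) (Pool.Agent.K3h23.GF.vec n y) hcy'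
        (by rw [hv0]; exact g1) (by rw [hv0]; exact g2) g5
      refine ⟨?_, ?_, ?_, ?_⟩
      · have e : Pool.Agent.K3h23.GF.vec n c 0 = c 0 := by simp [Pool.Agent.K3h23.GF.vec]
        rwa [e] at d1
      · have e : Pool.Agent.K3h23.GF.vec n c (Fin.last n).succ = - c 1 := by
          simp [Pool.Agent.K3h23.GF.vec, show n ≠ 0 by omega]
        rw [e, map_neg] at d2
        exact neg_ne_zero.1 d2
      · exact Pool.Agent.K3h23.GF.ne_zero_of_near v P ψ hψ (c 2) (y 2) (hcy 2) g4
      · rw [show Pool.Agent.K3h23.GF.vec n c 0 = c 0 by simp [Pool.Agent.K3h23.GF.vec]] at d3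
        have e : (Pool.Agent.TH377.Sup.pol fun i : Fin (n + 1) =>
            algebraMap R k (Pool.Agent.K3h23.GF.vec n c i.succ)) =
            C (algebraMap R k (c 2)) - C (algebraMap R k (c 1)) * X ^ n := by
          simp_rw [Pool.Agent.K3h23.GF.map_vec]
          exact Pool.Agent.K3h23.GF.pol_vec n (by omega) _
        rwa [e] at d3)
    ε hε
  refine ⟨I, hI, le_trans ?_ hle⟩
  have hsub : (Exceptional.{v, w, y} R k n : Set (Fin 3 → R)) ⊆
      {c : Fin 3 → R | ¬ GoodF R k n c} := by
    intro t ht hgood
    apply ht
    have hne : ∀ r : R, algebraMap R k r ≠ 0 → r ≠ 0 := by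
      rintro r hr rfl
      exact hr (map_zero _)
    refine ⟨hne _ hgood.1, hne _ hgood.2.1, hne _ hgood.2.2.1, ?_⟩
    intro L _ _ _ _ _ m hm
    exact of_good n hn t hgood L m hm
  exact_mod_cast Set.ncard_le_ncard (Set.image_mono hsub) (Set.toFinite _)

end Pool.Agent.Results.MP_2f3286_ag.GeneralizedFermat
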