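import Pool.Agent.K3h82.OT.Fin
import Pool.Agent.K3h82.OP.Ari
import Pool.Agent.Y158.FQ.Fin3

/-!
# Sections are determined by their restriction to one place, for superelliptic curves whose branch
points are not rational

Let `ℓ` be a prime number, let `K` be a number field, and let `X` be the superelliptic curve with the
equation

  `d y ^ ℓ = f(x)`

over `K`, with `f` monic and separable, such that `deg f` or `deg f + 1` is divisible by `ℓ` (for
`ℓ = 2` these are all hyperelliptic curves).  Let `L` be an extension field of `K`, for example the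
completion at a place above `ℓ`, with algebraic closure `C`.  We consider
sections of the geometrically pro-`ℓ` fundamental group of `X` (and of the fundamental groups of
curves with a nonconstant map to `X` and of their open subcurves), and prove the following two
assertions about them.

1. *Two sections of `π₁(X)^(ℓ) → G_K` which have the same restriction to `G_L` are equal.*
2. *A section which over `L` is given by a `K`-rational point is the section of this rational point.*

Nothing is assumed on the sections at the other places.  The first case is that `K` contains the `ℓ`-th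
roots of unity and all roots of `f` (`K' = K` below).  In general the roots of `f` and the roots of unity
generate an arbitrary finite Galois extension `K'/K`:

* `General`.  The assertions 1. and 2. hold over `K` if `G_L` acts on `K'` through the whole group
  `Gal(K'/K)` and if the following condition holds over `K'`: an element of `K'` which is an `ℓ`-th
  power in `L K'` and has a valuation divisible by `ℓ` at all places `w ∤ ℓ` of good reduction of `X`
  is an `ℓ`-th power in `K'`.
* `EllGroup`.  If `K` contains the `ℓ`-th roots of unity and the Galois group of `f` over `K` is an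
  `ℓ`-group, then both conditions follow from the condition over `K` alone: an element of `K` which is
  an `ℓ`-th power in `L` and has a valuation divisible by `ℓ` at all places `v ∤ ℓ` of good reduction is
  an `ℓ`-th power in `K`.

The condition over `K` is a finite computation, and it is proved in the following cases, so that the
theorem is unconditional there.

* `K = ℚ`, `ℓ = 2`, `L = ℚ_2`: `f` is a monic polynomial over `ℤ` whose Galois group is a `2`-group,
  and `d` and the discriminant of `f` divide a power of `2 p`, for a prime number `p = 3, 5` modulo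
  `8`.  Examples: `d y ^ 2 = x ^ (2 ^ m) + 1`, `d y ^ 2 = x ^ (2 ^ m + 1) - x`,
  `d y ^ 2 = x (x ^ 4 - 4)` with `d ∣ 2 p`.
* `K = ℚ(i)`, `ℓ = 2`, `L = ℚ_2(i)`: the Galois group of `f` is a `2`-group and the curve has good
  reduction outside `2 p`, for a prime number `p = 3, 5` modulo `8`.
* `K = ℚ(ζ_ℓ)` for an odd prime `ℓ` which does not divide the class number of `K`, `L` the completion
  at the place above `ℓ`: the Galois group of `f` is an `ℓ`-group and the curve has good reduction
  outside `ℓ p`, where `p` is a prime number which is inert in `K` and such that `p ^ (ℓ - 1)` is not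
  congruent to `1` modulo `ℓ ^ 2`.  Example: `d y ^ ℓ = x ^ (ℓ ^ m) - 1` with `d` dividing a power of
  `ℓ p`, `m ≥ 1`.

So for these curves a rational point and its section can be recognised at `ℓ`: a section is geometric
if and only if over `L` it is given by one of the `K`-rational points.

Proof.  (1) Let `M/K` be a finite Galois `ℓ`-extension which is unramified at the places of good
reduction.  If the decomposition group of `L` in `Gal(M/K)` were not everything, it would be contained
in a normal subgroup of index `ℓ`, and Kummer theory would contradict the condition over `K`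
(`dec_all`).  For `M = K'` this is the first condition of `General`.  (2) If `a` is in `K'` and is a
local `ℓ`-th power as in the second condition, this is applied to the normal closure of
`K'(a ^ (1/ℓ))`: the group `Gal(M/K')` is generated by elements which come from `G_{LK'}`, and these
fix `a ^ (1/ℓ)` (`locPow_up`).  (3) Sections over `K` are restricted to `G_{K'}`, where the theorem for
curves with rational branch points applies; a place which is rational over `K` has values in `K'` on
the function field over `K'` (`val_up`).  As `G_K` is the product of `G_{K'}` and the decomposition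
group of `L`, and as the tower of coverings is stable under all sections, the assertions descend to `K`
(`detU`, `ptU`).
-/

set_option autoImplicit false

open Polynomial Pool.Agent.W620.SC Pool.Agent.TH954 NumberField IsDedekindDomain

namespace Pool.Agent.Results.MP_2f3286_ag.OnePlaceTowers

/-- The maximal geometrically pro-`ℓ` unramified extension `N₀` of `K(x, y)` in `Ω`: the compositum of
the finite Galois extensions in `Ω` of `K̄(x, y)` whose degree is a power of `ℓ` and in which no
valuation ring over `K̄` ramifies. -/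
noncomputable def ProEll (ℓ : ℕ) (K : Type) {Ω : Type} [Field K] [Field Ω] [Algebra K Ω] (x y : Ω) :
    Set Ω :=
  Pool.Agent.Y157.PS.geomPro ℓ K (IntermediateField.adjoin K {x, y}) Ω

/-- The coefficients of `q` are integral at `v`. -/
def IntegralAt {K : Type} [Field K] [NumberField K] (v : HeightOneSpectrum (𝓞 K)) (q : K[X]) : Prop :=
  ∀ n, v.valuation K (q.coeff n) ≤ 1

/-- The coefficients of `f` are integral at `v`, and `f` is separable modulo `v` (for monic `f` this
says that the discriminant of `f` is a unit at `v`). -/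
def SeparableAt {K : Type} [Field K] [NumberField K] (v : HeightOneSpectrum (𝓞 K)) (f : K[X]) :
    Prop :=
  IntegralAt v f ∧ ∃ u w : K[X], IntegralAt v u ∧ IntegralAt v w ∧ u * f + w * derivative f = 1

/-- The place `v` does not divide `ℓ`, and `d y ^ ℓ = f(x)` has good reduction there: `f` is integral
and separable modulo `v` and the valuation of `d` is divisible by `ℓ`. -/
def GoodAt {K : Type} [Field K] [NumberField K] (ℓ : ℕ) (f : K[X]) (d : K)
    (v : HeightOneSpectrum (𝓞 K)) : Prop :=
  (ℓ : 𝓞 K) ∉ v.asIdeal ∧ (∃ t : WithZero (Multiplicative ℤ), v.valuation K d = t ^ ℓ) ∧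
    SeparableAt v f

/-- The condition over `K`: a nonzero element of `K` that is an `ℓ`-th power in `L` and has a valuation
divisible by `ℓ` at the places of good reduction is an `ℓ`-th power in `K`. -/
def LocalPowers {K : Type} [Field K] [NumberField K] (ℓ : ℕ) (f : K[X]) (d : K)
    (L : Type) [Field L] [Algebra K L] : Prop :=
  ∀ a : K, a ≠ 0 →
    (∀ v, GoodAt ℓ f d v → ∃ t : WithZero (Multiplicative ℤ), v.valuation K a = t ^ ℓ) →
    (∃ z : L, algebraMap K L a = z ^ ℓ) → ∃ b : K, a = b ^ ℓ

/-- The condition over `K'`, for an embedding `i` of `K'` in the algebraic closure `C` of `L`: a nonzero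
element of `K'` that is an `ℓ`-th power in `L K'` and has a valuation divisible by `ℓ` at the places of
good reduction is an `ℓ`-th power in `K'`. -/
def LocalPowersIn {K K' C : Type} [Field K] [Field K'] [NumberField K'] [Field C] [Algebra K K']
    [Algebra K C] (ℓ : ℕ) (f : K[X]) (d : K) (L : Type) [Field L] [Algebra L C]
    (i : K' →ₐ[K] C) : Prop :=
  ∀ a : K', a ≠ 0 →
    (∀ w, GoodAt ℓ (f.map (algebraMap K K')) (algebraMap K K' d) w →
      ∃ t : WithZero (Multiplicative ℤ), w.valuation K' a = t ^ ℓ) →
    (∃ z ∈ IntermediateField.adjoin L (Set.range i), i a = z ^ ℓ) → ∃ b : K', a = b ^ ℓ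

/-- `Gal(C/L)` acts on the image of `K'` in `C` through the whole group `Gal(K'/K)`. -/
def Everything {K K' C : Type} [Field K] [Field K'] [Field C] [Algebra K K'] [Algebra K C]
    (L : Type) [Field L] [Algebra L C] (i : K' →ₐ[K] C) : Prop :=
  ∀ σ : K' ≃ₐ[K] K', ∃ τ : C ≃ₐ[L] C, ∀ z, i (σ z) = τ (i z)

/-- The automorphisms of `B` over `K` induced by the automorphisms of `C` over `L` through `ι`. -/
def Loc {K B C : Type} (L : Type) [Field K] [Field B] [Field C] [Field L] [Algebra K B]
    [Algebra K C] [Algebra L C] (ι : B →ₐ[K] C) : Set (B ≃ₐ[K] B) :=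
  {σ | ∃ τ : C ≃ₐ[L] C, ∀ z, ι (σ z) = τ (ι z)}

section sections

variable (K F : Type) {N : Type} (B L C : Type) [Field K] [Field F] [Field N] [Field B] [Field L]
  [Field C] [Algebra F N] [Algebra K N] [Algebra K B] [Algebra L C] [Algebra K C]

/-- Two sections `s`, `t` of `Gal(N/F) → G_K` which fix `x` and `y`, for the same embedding of
`B = K̄` in `N`, and which agree on the subset `S` of `N` for all `σ` in `Loc L ι`, for one embedding
`ι` of `B` in `C`, agree on `S` for all `σ`. -/
def EqualIfLocallyEqual (S : Set N) (x y : N) : Prop :=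
  ∀ (s t : GalSection K F N B) (ι : B →ₐ[K] C), s.j = t.j →
    (∀ σ, s.s σ x = x ∧ s.s σ y = y ∧ t.s σ x = x ∧ t.s σ y = y) →
    (∀ σ ∈ Loc L ι, ∀ z ∈ S, s.s σ z = t.s σ z) → ∀ σ, ∀ z ∈ S, s.s σ z = t.s σ z

/-- Let `w` be a place of `N` with values in `C` which gives the section `s` of `Gal(N/F) → G_K` over
`L`, where `s` fixes `x` and `y`, and assume that the value at `w` of each element `g` of `T` that
has a finite value is in `K`.  Then for all `σ` and all `z` in `S`, the element `s σ z` is in the
valuation ring of `w` if and only if `z` is. -/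
def GeometricIfLocallyRational (T S : Set N) (x y : N) : Prop :=
  ∀ (s : GalSection K F N B) (w : Plc K N C), (∀ σ, s.s σ x = x ∧ s.s σ y = y) → s.GivenBy L w →
    (∀ g ∈ T, g ∈ w.W → ∃ c : K, w.val g (algebraMap K C c)) →
    ∀ σ, ∀ z ∈ S, s.s σ z ∈ w.W ↔ z ∈ w.W

end sections

/-- The field `K(x, y)`, as a subset of `N`. -/
def Functions (K : Type) {F Ω : Type} [Field K] [Field F] [Field Ω] [Algebra F Ω] [Algebra K Ω]
    {N : IntermediateField F Ω} (x y : N) : Set N :=
  {g | (g : Ω) ∈ IntermediateField.adjoin K {(x : Ω), (y : Ω)}}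

/-- The extension `ProEll ℓ K x y` of `K(x, y)`, as a subset of `N`. -/
def Tower (ℓ : ℕ) (K : Type) {F Ω : Type} [Field K] [Field F] [Field Ω] [Algebra F Ω] [Algebra K Ω]
    {N : IntermediateField F Ω} (x y : N) : Set N :=
  {z | (z : Ω) ∈ ProEll ℓ K (x : Ω) (y : Ω)}

/-- The elements `x`, `y` of `Ω` satisfy the equation `d y ^ ℓ = f(x)`, the element `x` is
transcendental over `K`, and `Ω` is algebraic over `K(x)`. -/
def OnCurve (ℓ : ℕ) {K Ω : Type} [Field K] [Field Ω] [Algebra K Ω] (f : K[X]) (d : K)
    (x y : Ω) : Prop :=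
  Transcendental K x ∧ Algebra.IsAlgebraic (IntermediateField.adjoin K {x}) Ω ∧
    algebraMap K Ω d * y ^ ℓ = aeval x f

/-- Sections are determined by one place, for the curve `d y ^ ℓ = f(x)` over `K`, and for the
extension `L` of `K` with algebraic closure `C`.  Let `F` be a field over `K` with algebraic
closure `Ω`, let `N` be an extension of `F` in `Ω` and let `x`, `y` be elements of `N` which satisfy the
equation of the curve, such that `x` is transcendental over `K`, `Ω` is algebraic over `K(x)` and `N`
contains `ProEll ℓ K x y`.  We consider sections of `Gal(N/F) → G_K` which fix `x` and `y`.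

1. Two such sections which agree on `ProEll ℓ K x y` for all `σ` in `Loc L ι` agree there for all `σ`.

2. If `w` is a place of `N` with values in `C` that gives such a section `s` over `L`, and if the
values at `w` of the functions in `K(x, y)` are in `K ∪ {∞}`, so that the point below `w` on the curve
is `K`-rational, then all `s σ` map the valuation ring of `w` on `ProEll ℓ K x y` to itself: `s` is
the section of this point. -/
def OnePlaceDetermines (ℓ : ℕ) {K : Type} [Field K] [NumberField K] (f : K[X]) (d : K)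
    (L C : Type) [Field L] [Field C] [Algebra K L] [Algebra L C] [Algebra K C] : Prop :=
  ∀ (F Ω B : Type) [Field F] [Field Ω] [Field B] [Algebra K F] [Algebra F Ω] [Algebra K Ω]
    [Algebra K B] [IsScalarTower K F Ω] [IsAlgClosed Ω] [Algebra.IsAlgebraic F Ω]
    [IsAlgClosure K B] (N : IntermediateField F Ω) (x y : N),
    OnCurve ℓ f d (x : Ω) (y : Ω) → ProEll ℓ K (x : Ω) (y : Ω) ⊆ N →
    EqualIfLocallyEqual K F B L C (Tower ℓ K x y) x y ∧
      GeometricIfLocallyRational K F B L C (Functions K x y) (Tower ℓ K x y) x y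

/-- The number of branch points, with `∞`, is at least three and divisible by `ℓ`. -/
def Branched (ℓ n : ℕ) : Prop := (ℓ ∣ n ∨ ℓ ∣ n + 1) ∧ 3 ≤ n + if ℓ ∣ n then 0 else 1

/-- The curve has good reduction outside `ℓ` and `p`. -/
def GoodOutside {K : Type} [Field K] [NumberField K] (ℓ p : ℕ) (f : K[X]) (d : K) : Prop :=
  ∀ v : HeightOneSpectrum (𝓞 K), (ℓ : 𝓞 K) ∉ v.asIdeal → (p : 𝓞 K) ∉ v.asIdeal → GoodAt ℓ f d v

/-- Let `K'` be a finite Galois extension of `K` which contains the `ℓ`-th roots of unity and the roots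
of `f`.  Sections are determined by one place if `Gal(C/L)` acts on `K'` through `Gal(K'/K)` and the
condition `LocalPowersIn` is satisfied. -/
def General : Prop :=
  ∀ (K K' : Type) [Field K] [NumberField K] [Field K'] [NumberField K'] [Algebra K K']
    [IsGalois K K'] (ℓ : ℕ) [Fact ℓ.Prime] (ζ : K') (f : K[X]) (d : K)
    (L C : Type) [Field L] [Field C] [Algebra K L] [Algebra L C] [Algebra K C]
    [IsScalarTower K L C] [IsAlgClosure L C], IsPrimitiveRoot ζ ℓ → f.Monic → f.Separable →
    (f.map (algebraMap K K')).Splits → Branched ℓ f.natDegree → d ≠ 0 →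
    (∀ i : K' →ₐ[K] C, Everything L i ∧ LocalPowersIn ℓ f d L i) → OnePlaceDetermines ℓ f d L C

/-- Sections are determined by one place if `K` contains the `ℓ`-th roots of unity, the Galois group of
`f` is an `ℓ`-group and the condition `LocalPowers` is satisfied. -/
def EllGroup : Prop :=
  ∀ (K : Type) [Field K] [NumberField K] (ℓ : ℕ) [Fact ℓ.Prime] (ζ : K) (f : K[X]) (d : K)
    (L C : Type) [Field L] [Field C] [Algebra K L] [Algebra L C] [Algebra K C]
    [IsScalarTower K L C] [IsAlgClosure L C], IsPrimitiveRoot ζ ℓ → f.Monic → f.Separable →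
    IsPGroup ℓ f.Gal → Branched ℓ f.natDegree → d ≠ 0 →
    LocalPowers ℓ f d L → OnePlaceDetermines ℓ f d L C

/-- The case `K = ℚ`, `ℓ = 2`, `L = ℚ_2`: `p` is a prime number, `3` or `5` modulo `8`, `f` is a monic
polynomial over `ℤ` whose Galois group is a `2`-group, `d` divides a power of `2 p`, and a power of
`2 p` is in the ideal `(f, f')` of `ℤ[X]` (the discriminant of `f` divides a power of `2 p`). -/
def RationalCase : Prop :=
  ∀ (p n : ℕ) (f : ℤ[X]) (d : ℤ), p.Prime → (p % 8 = 3 ∨ p % 8 = 5) → f.Monic → 3 ≤ f.natDegree →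
    IsPGroup 2 (f.map (Int.castRingHom ℚ)).Gal → d ∣ (2 * p) ^ n →
    (∃ u w : ℤ[X], u * f + w * derivative f = C ((2 * (p : ℤ)) ^ n)) →
    OnePlaceDetermines 2 (f.map (Int.castRingHom ℚ)) (d : ℚ) ℚ_[2] (AlgebraicClosure ℚ_[2])

/-- The case `K = ℚ(i)`, `ℓ = 2`, `L = ℚ_2(i)`: the Galois group of `f` is a `2`-group and the curve has
good reduction outside `2 p`, for a prime number `p`, `3` or `5` modulo `8`. -/
def GaussianCase : Prop :=
  ∀ (K L C : Type) [Field K] [NumberField K] [Field L] [Field C] [Algebra K L] [Algebra L C]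
    [Algebra K C] [Algebra ℚ_[2] L] [IsScalarTower K L C] [IsAlgClosure L C] (i : K)
    (f : K[X]) (d : K) (p : ℕ), i ^ 2 = -1 → (∀ z : K, ∃ a b : ℚ, z = a + b * i) →
    (∀ z : L, ∃ a b : ℚ_[2],
      z = algebraMap ℚ_[2] L a + algebraMap ℚ_[2] L b * algebraMap K L i) →
    p.Prime → (p % 8 = 3 ∨ p % 8 = 5) → f.Monic → f.Separable → 3 ≤ f.natDegree →
    IsPGroup 2 f.Gal → d ≠ 0 → GoodOutside 2 p f d → OnePlaceDetermines 2 f d L C

/-- The case `K = ℚ(ζ_ℓ)`, where `ℓ` is an odd prime that does not divide the class number of `K`, and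
`L` is the completion at the place above `ℓ`: the Galois group of `f` is an `ℓ`-group and the curve has
good reduction outside `ℓ p`, where `p ≠ ℓ` is a prime number which is inert in `K` and such that
`ℓ ^ 2` does not divide `p ^ (ℓ - 1) - 1`. -/
def CyclotomicCase : Prop :=
  ∀ (K C : Type) [Field K] [NumberField K] (ℓ : ℕ) [Fact ℓ.Prime]
    [IsCyclotomicExtension {ℓ} ℚ K] (v : HeightOneSpectrum (𝓞 K)) [Field C] [Algebra K C]
    [Algebra (v.adicCompletion K) C] [IsScalarTower K (v.adicCompletion K) C]
    [IsAlgClosure (v.adicCompletion K) C] (f : K[X]) (d : K) (p : ℕ), ℓ ≠ 2 →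
    ¬ ℓ ∣ classNumber K → (ℓ : 𝓞 K) ∈ v.asIdeal → p.Prime → p ≠ ℓ →
    (Ideal.span {(p : 𝓞 K)}).IsPrime → ¬ (ℓ : ℤ) ^ 2 ∣ (p : ℤ) ^ (ℓ - 1) - 1 →
    f.Monic → f.Separable → IsPGroup ℓ f.Gal → Branched ℓ f.natDegree → d ≠ 0 →
    GoodOutside ℓ p f d → OnePlaceDetermines ℓ f d (v.adicCompletion K) C

/-- If `x`, `y` are in `F`, the extension `N₀` is contained in the maximal extension of `F` which is
unramified at a set `U` of valuation rings over `K`; so the theorem applies to the fundamental group
of every curve with function field `F`. -/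
theorem proEll_unramified {K F Ω : Type} [Field K] [CharZero K] [Field F] [Field Ω] [Algebra K F]
    [Algebra F Ω] [Algebra K Ω] [IsScalarTower K F Ω] [IsAlgClosed Ω] [Algebra.IsAlgebraic F Ω]
    (ℓ : ℕ) [Fact ℓ.Prime] (x y : F) (hx : Transcendental K x)
    (hF : Algebra.IsAlgebraic (IntermediateField.adjoin K {x}) F) (U : Set (ValuationSubring F))
    (hU : ∀ O ∈ U, ∀ c : K, algebraMap K F c ∈ O) :
    ProEll ℓ K (algebraMap F Ω x) (algebraMap F Ω y) ⊆ unramified F Ω U :=
  fun z hz => Pool.Agent.Y158.FQ.geomPro_unr' ℓ x hx hF _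
    (IntermediateField.subset_adjoin K _ (by simp)) U hU z
    ((Pool.Agent.Y158.FQ.geomPro_base (k := K) (K := K) (X := x) (Y := y) (c := 1) (c' := 1)
      (one_mem _) (one_mem _) one_ne_zero one_ne_zero (by rw [one_mul]) (by rw [one_mul]) z).2 hz)

section proofs

open Pool.Agent.K3h82.OT (AllAt LocAt split_prod detU ptU tower_cond root_facts)

/-- the theorem over `K` for a splitting field `K'` -/
theorem main {K K' : Type} [Field K] [NumberField K] [Field K'] [NumberField K'] [Algebra K K']
    [Normal K K'] (ℓ : ℕ) [Fact ℓ.Prime] {ζ : K'} (hζ : IsPrimitiveRoot ζ ℓ) (f : K[X]) (d : K)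
    (hm : f.Monic) (hs : f.Separable) (hsp : (f.map (algebraMap K K')).Splits)
    (hB : Branched ℓ f.natDegree) (hd : d ≠ 0) (L C : Type) [Field L] [Field C]
    [Algebra K L] [Algebra L C] [Algebra K C] [IsScalarTower K L C] [IsAlgClosure L C]
    (hall : ∀ i : K' →ₐ[K] C, AllAt L i)
    (hloc : ∀ (i : K' →ₐ[K] C) (E : Finset K'), (∀ e ∈ E, aeval e f = 0) →
      LocAt ℓ L i (Pool.Agent.K3h82.OP.GoodAt ℓ E (algebraMap K K' d))) :
    OnePlaceDetermines ℓ f d L C := by
  classical
  intro F Ω B _ _ _ _ _ _ _ _ _ _ _ N x y hc hN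
  obtain ⟨hx, hΩ, hxy⟩ := hc
  have : CharZero L := charZero_of_injective_algebraMap (algebraMap K L).injective
  obtain ⟨E, hE⟩ : ∃ E : Finset K', E = (f.map (algebraMap K K')).roots.toFinset := ⟨_, rfl⟩
  have hprod := split_prod (K' := K') hm hs hsp
  have hcard : E.card = f.natDegree := by
    have h1 : (f.map (algebraMap K K')).roots.Nodup := nodup_roots hs.map
    rw [hE, Multiset.toFinset_card_of_nodup h1, ← hsp.natDegree_eq_card_roots, natDegree_map]
  have hroots : ∀ e ∈ E, aeval e f = 0 := by
    intro e he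
    rw [hE, Multiset.mem_toFinset, mem_roots'] at he
    rw [← eval_map_algebraMap]
    exact he.2
  rw [← hE] at hprod
  rw [← hcard] at hB
  refine ⟨fun s t ι hj hf hD => ?_, fun s w hf hw hpt => ?_⟩
  · exact detU hζ hB.1 hB.2 hd hprod hall (fun i => hloc i E hroots) N x y hx hΩ hxy hN s t
      (fun σ => (hf σ).1) (fun σ => (hf σ).2.1) (fun σ => (hf σ).2.2.1) (fun σ => (hf σ).2.2.2) hj ι
      hD
  · exact ptU hζ hB.1 hB.2 hd hprod hall (fun i => hloc i E hroots) N x y hx hΩ hxy hN s
      (fun σ => (hf σ).1) (fun σ => (hf σ).2) w hw hpt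

/-- good reduction and the roots -/
theorem good_roots {K K' : Type} [Field K] [Field K'] [NumberField K'] [Algebra K K'] {ℓ : ℕ}
    {f : K[X]} (hm : f.Monic) {d : K} {w : HeightOneSpectrum (𝓞 K')}
    (hw : GoodAt ℓ (f.map (algebraMap K K')) (algebraMap K K' d) w) (E : Finset K')
    (hE : ∀ e ∈ E, aeval e f = 0) :
    Pool.Agent.K3h82.OP.GoodAt ℓ E (algebraMap K K' d) w := by
  have hV : Pool.Agent.Y158.GR.Above (κ := K') w (w.valuation K').valuationSubring := by
    intro z
    exact Valuation.mem_valuationSubring_iff _ _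
  obtain ⟨h1, h2⟩ := root_facts hV (hm.map (algebraMap K K')) hw.2.2
  have h3 : ∀ e ∈ E, aeval e (f.map (algebraMap K K')) = 0 := by
    intro e he
    rw [aeval_map_algebraMap]
    exact hE e he
  refine ⟨hw.1, hw.2.1, fun e he => (hV e).1 (h1 e (h3 e he)), fun e he e' he' hne => ?_⟩
  rw [← hV.isU]
  refine Pool.Agent.Y157.PS.isU_of_not_nonunit (sub_mem (h1 e (h3 e he)) (h1 e' (h3 e' he')))
    fun h4 => hne (h2 e e' (h3 e he) (h3 e' he') h4)

theorem general : General := by
  intro K K' _ _ _ _ _ _ ℓ _ ζ f d L C _ _ _ _ _ _ _ hζ hm hs hsp hB hd h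
  refine main ℓ hζ f d hm hs hsp hB hd L C (fun i => (h i).1) fun i E hE => ?_
  intro a ha hv hz
  exact (h i).2 a ha (fun w hw => hv w (good_roots hm hw E hE)) hz

theorem ellGroup : EllGroup := by
  intro K _ _ ℓ _ ζ f d L C _ _ _ _ _ _ _ hζ hm hs hG hB hd h
  have : CharZero L := charZero_of_injective_algebraMap (algebraMap K L).injective
  haveI : NumberField f.SplittingField := NumberField.of_module_finite K f.SplittingField
  haveI : Normal K f.SplittingField := Normal.of_isSplittingField f
  have hcond := fun (i : f.SplittingField →ₐ[K] C) (E : Finset f.SplittingField)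
    (hE : ∀ e ∈ E, aeval e f = 0) =>
    tower_cond hζ hm hd (L := L) h (K' := f.SplittingField) (SplittingField.adjoin_rootSet f)
      (fun σ => hG σ) E hE i
  refine main ℓ (K' := f.SplittingField) (ζ := algebraMap K f.SplittingField ζ)
    (hζ.map_of_injective (algebraMap K f.SplittingField).injective) f d hm hs
    (SplittingField.splits f) hB hd L C (fun i => (hcond i ∅ (by simp)).1)
    fun i E hE => (hcond i E hE).2

theorem branched_two : ∀ n : ℕ, 3 ≤ n → Branched 2 n := by
  intro n hn
  refine ⟨by omega, ?_⟩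
  split_ifs <;> omega

theorem rationalCase : RationalCase := by
  intro p n f d hp hp8 hm h3 hG hd hb
  haveI : Fact (Nat.Prime 2) := ⟨Nat.prime_two⟩
  have h2p : ((2 * p : ℤ) ^ n) ≠ 0 := by
    have : (p : ℤ) ≠ 0 := by exact_mod_cast hp.ne_zero
    exact pow_ne_zero n (mul_ne_zero two_ne_zero this)
  have h2pQ : (((2 * p : ℤ) ^ n : ℤ) : ℚ) ≠ 0 := by exact_mod_cast h2p
  have hd0 : (d : ℚ) ≠ 0 := by
    have h4 : d ≠ 0 := by
      rintro rfl
      exact h2p (zero_dvd_iff.1 hd)
    exact_mod_cast h4
  have hζ : IsPrimitiveRoot (-1 : ℚ) 2 := IsPrimitiveRoot.neg_one 0 (by norm_num)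
  obtain ⟨u, w, huw⟩ := hb
  obtain ⟨c, hc⟩ : ∃ c : ℚ, c = (((2 * p : ℤ) ^ n : ℤ) : ℚ)⁻¹ := ⟨_, rfl⟩
  have hbez : (C c * u.map (Int.castRingHom ℚ)) * f.map (Int.castRingHom ℚ) +
      (C c * w.map (Int.castRingHom ℚ)) * derivative (f.map (Int.castRingHom ℚ)) = 1 := by
    have h4 := congrArg (Polynomial.map (Int.castRingHom ℚ)) huw
    rw [Polynomial.map_add, Polynomial.map_mul, Polynomial.map_mul, Polynomial.map_C,
      ← Polynomial.derivative_map] at h4
    have h5 : C c * C ((Int.castRingHom ℚ) ((2 * p : ℤ) ^ n)) = (1 : ℚ[X]) := by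
      rw [← C_mul, hc, eq_intCast, inv_mul_cancel₀ h2pQ, C_1]
    rw [← h5, ← h4]
    ring
  have hs : (f.map (Int.castRingHom ℚ)).Separable := ⟨_, _, hbez⟩
  have key : ∀ v : HeightOneSpectrum (𝓞 ℚ), (2 : 𝓞 ℚ) ∉ v.asIdeal → (p : 𝓞 ℚ) ∉ v.asIdeal →
      ∀ m : ℤ, m ∣ (2 * p) ^ n → v.valuation ℚ (m : ℚ) = 1 := by
    intro v h2 hpv m hm
    have h3 : (m : ℚ) = algebraMap (𝓞 ℚ) ℚ (m : 𝓞 ℚ) := by rw [map_intCast]
    rw [h3, v.valuation_of_algebraMap, v.intValuation_eq_one_iff]
    intro h4
    obtain ⟨e, he⟩ := hm
    have h5 : (((2 * p) ^ n : ℤ) : 𝓞 ℚ) ∈ v.asIdeal := by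
      rw [he]
      push_cast
      exact Ideal.mul_mem_right _ _ h4
    push_cast at h5
    rcases v.isPrime.mem_or_mem (v.isPrime.mem_of_pow_mem _ h5) with h6 | h6
    · exact h2 h6
    · exact hpv h6
  have hint : ∀ (v : HeightOneSpectrum (𝓞 ℚ)) (q : ℤ[X]),
      IntegralAt v (q.map (Int.castRingHom ℚ)) := by
    intro v q k
    rw [coeff_map, eq_intCast]
    have h3 : ((q.coeff k : ℤ) : ℚ) = algebraMap (𝓞 ℚ) ℚ ((q.coeff k : ℤ) : 𝓞 ℚ) := by
      rw [map_intCast]
    rw [h3]
    exact v.valuation_le_one _
  have hloc : LocalPowers 2 (f.map (Int.castRingHom ℚ)) (d : ℚ) ℚ_[2] := by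
    refine Pool.Agent.K3h82.OP.locPow_two hp hp8 (fun v h2 hpv => ?_)
    have hcv : v.valuation ℚ c = 1 := by
      rw [hc, map_inv₀, key v h2 hpv _ dvd_rfl, inv_one]
    have hcq : ∀ q : ℤ[X], IntegralAt v (C c * q.map (Int.castRingHom ℚ)) := by
      intro q k
      rw [coeff_C_mul, map_mul, hcv, one_mul]
      exact hint v q k
    exact ⟨by exact_mod_cast h2, ⟨1, by rw [one_pow]; exact key v h2 hpv d hd⟩, hint v f, _, _,
      hcq u, hcq w, hbez⟩
  haveI : IsScalarTower ℚ ℚ_[2] (AlgebraicClosure ℚ_[2]) :=
    IsScalarTower.of_algebraMap_eq' (Subsingleton.elim _ _)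
  refine ellGroup ℚ 2 (-1) _ _ _ _ hζ (hm.map _) hs hG ?_ hd0 hloc
  rw [hm.natDegree_map]
  exact branched_two _ h3

theorem gaussianCase : GaussianCase := by
  intro K L C _ _ _ _ _ _ _ _ _ _ i f d p hi hK hL hp hp8 hm hs h3 hG hd hv
  haveI : Fact (Nat.Prime 2) := ⟨Nat.prime_two⟩
  have hζ : IsPrimitiveRoot (-1 : K) 2 := IsPrimitiveRoot.neg_one 0 (by norm_num)
  refine ellGroup K 2 (-1) f d L C hζ hm hs hG (branched_two _ h3) hd ?_
  intro a ha h6 h7
  exact Pool.Agent.K3h82.BT.inj_of (ι := i) ⟨hi, hK⟩
    ⟨by rw [← map_pow, hi, map_neg, map_one], hL⟩ hp hp8 a ha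
    (fun v h8 h9 => h6 v (hv v (by exact_mod_cast h8) h9)) h7

theorem cyclotomicCase : CyclotomicCase := by
  intro K C _ _ ℓ _ _ v _ _ _ _ _ f d p hℓ hreg hvℓ hp hpℓ hpK hpl hm hs hG hB hd hv
  have hℓp : ℓ.Prime := Fact.out
  have hℓ2 : 2 < ℓ := lt_of_le_of_ne hℓp.two_le (Ne.symm hℓ)
  have hcop : (classNumber K).Coprime ℓ := ((Nat.Prime.coprime_iff_not_dvd hℓp).2 hreg).symm
  have hKL := Pool.Agent.Y158.KL.kummer_lemma (IsCyclotomicExtension.zeta_spec ℓ ℚ K) hℓ2 hcop
  obtain ⟨ζ, hζ⟩ : ∃ ζ : K, IsPrimitiveRoot ζ ℓ := ⟨_, IsCyclotomicExtension.zeta_spec ℓ ℚ K⟩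
  have hvl : v = Pool.Agent.Y158.KL.lam hζ := by
    by_contra hne
    exact Pool.Agent.Y158.GR.ell_notMem hζ hne hvℓ
  subst hvl
  exact ellGroup K ℓ ζ f d _ C hζ hm hs hG hB hd
    (Pool.Agent.K3h82.OP.locPow_reg hζ hcop hKL hp hpK hpl hpℓ hv)

end proofs

end Pool.Agent.Results.MP_2f3286_ag.OnePlaceTowers

open Pool.Agent.Results.MP_2f3286_ag.OnePlaceTowers in
/-- **Sections are determined by their restriction to one place**, for the superelliptic curves
`d y ^ ℓ = f(x)` over a number field `K`, without rational branch points.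

1. `General`: this holds for an extension `L` of `K` if a finite Galois extension `K'` of `K` contains
the `ℓ`-th roots of unity and the roots of `f`, `G_L` acts on `K'` through the whole Galois group
`Gal(K'/K)`, and the condition `LocalPowersIn` holds over `K'`.

2. `EllGroup`: it holds if `K` contains the `ℓ`-th roots of unity, the Galois group of `f` is an
`ℓ`-group and the condition `LocalPowers` holds over `K`.

3. It holds for `K = ℚ`, `ℓ = 2`, `L = ℚ_2`, if `f` is a monic polynomial over `ℤ` whose Galois group is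
a `2`-group, and `d` and the discriminant of `f` divide a power of `2 p`, for a prime number
`p = 3, 5` modulo `8`.

4. It holds for `K = ℚ(i)`, `ℓ = 2`, `L = ℚ_2(i)`, if the Galois group of `f` is a `2`-group and the
curve has good reduction outside `2 p`, for a prime number `p = 3, 5` modulo `8`.

5. It holds for `K = ℚ(ζ_ℓ)`, if `ℓ` is odd and does not divide the class number of `K`, and the
completion `L` at the place above `ℓ`, if the Galois group of `f` is an `ℓ`-group and the curve has good
reduction outside `ℓ p`, where `p ≠ ℓ` is a prime number which is inert in `K` and such that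
`ℓ ^ 2` does not divide `p ^ (ℓ - 1) - 1`. -/
theorem Pool.Agent.Results.MP_2f3286_ag.OnePlaceTowers.result :
    General ∧ EllGroup ∧ RationalCase ∧ GaussianCase ∧ CyclotomicCase :=
  ⟨general, ellGroup, rationalCase, gaussianCase, cyclotomicCase⟩
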